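import Pool.Agent.Helper55.RT.Spec5

set_option autoImplicit false
set_option linter.all false

open Polynomial
open scoped Classical

namespace Pool.Agent.Helper26.Thin.VKO

open Pool.Agent.Helper55.RT Pool.Agent.Helper55.RL

lemma mult_lt {κ k' : Type} [Field κ] [CharZero κ] [Field k'] [Algebra κ k'] (p : ℕ) (S : κ[X])
    (hS : S ≠ 0) (hq : ∀ q : κ[X], Irreducible q → ¬ q ^ p ∣ S) (x : k') (hx : IsIntegral κ x) :
    rootMultiplicity x (S.map (algebraMap κ k')) < p := by
  have hirr := minpoly.irreducible hx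
  have hfin : FiniteMultiplicity (minpoly κ x) S :=
    FiniteMultiplicity.of_not_isUnit hirr.not_isUnit hS
  obtain ⟨S₁, h1, h2⟩ := hfin.exists_eq_pow_mul_and_not_dvd
  set m := multiplicity (minpoly κ x) S with hm
  have hmp : m < p := by
    by_contra hcon
    push Not at hcon
    refine hq _ hirr ?_
    rw [h1]
    exact Dvd.dvd.mul_right (pow_dvd_pow _ hcon) _
  have hinj := (algebraMap κ k').injective
  have hS' : S.map (algebraMap κ k') ≠ 0 := (Polynomial.map_ne_zero_iff hinj).2 hS
  have e1 : S.map (algebraMap κ k') =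
      (minpoly κ x).map (algebraMap κ k') ^ m * S₁.map (algebraMap κ k') := by
    rw [← Polynomial.map_pow, ← Polynomial.map_mul, ← h1]
  have h3 : rootMultiplicity x (S₁.map (algebraMap κ k')) = 0 := by
    apply rootMultiplicity_eq_zero
    intro h
    apply h2
    apply minpoly.dvd
    rw [IsRoot.def, eval_map_algebraMap] at h
    exact h
  have h4 : rootMultiplicity x ((minpoly κ x).map (algebraMap κ k')) ≤ 1 := by
    apply rootMultiplicity_le_one_of_separable
    exact hirr.separable.map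
  have h5 : rootMultiplicity x (S.map (algebraMap κ k')) ≤ m := by
    rw [e1, rootMultiplicity_mul (by rw [← e1]; exact hS'), h3, add_zero, ← count_roots,
      roots_pow, Multiset.count_nsmul, count_roots]
    nlinarith
  omega

lemma irr_of {κ k' : Type} [Field κ] [Field k'] [Algebra κ k'] {n : ℕ} (θ : Fin n → k')
    (hθ : Function.Injective θ) (O : Finset (Fin n)) (i₀ : Fin n) (hi₀ : i₀ ∈ O)
    (htr : ∀ j ∈ O, ∃ ν : k' ≃ₐ[κ] k', ν (θ i₀) = θ j) (D₁ : κ[X])
    (hD₁ : D₁.map (algebraMap κ k') = ∏ i ∈ O, (X - C (θ i))) : D₁ = minpoly κ (θ i₀) := by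
  have hinj := (algebraMap κ k').injective
  have hmon : D₁.Monic := by
    apply (Polynomial.monic_map_iff (f := algebraMap κ k')).1
    rw [hD₁]
    exact monic_prod_of_monic _ _ fun i _ => monic_X_sub_C _
  have hroot : aeval (θ i₀) D₁ = 0 := by
    rw [← eval_map_algebraMap, hD₁, eval_prod]
    exact Finset.prod_eq_zero hi₀ (by simp)
  have hint : IsIntegral κ (θ i₀) := ⟨D₁, hmon, by rwa [aeval_def] at hroot⟩
  have h1 : minpoly κ (θ i₀) ∣ D₁ := minpoly.dvd _ _ hroot
  have h2 : D₁ ∣ minpoly κ (θ i₀) := by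
    rw [← Polynomial.map_dvd_map' (algebraMap κ k'), hD₁]
    apply Finset.prod_dvd_of_coprime
    · intro i _ j _ hij
      exact pairwise_coprime_X_sub_C hθ hij
    · intro j hj
      rw [dvd_iff_isRoot, IsRoot.def, eval_map_algebraMap]
      obtain ⟨ν, hν⟩ := htr j hj
      rw [← hν]
      have : aeval (ν (θ i₀)) (minpoly κ (θ i₀)) = ν (aeval (θ i₀) (minpoly κ (θ i₀))) :=
        Polynomial.aeval_algHom_apply ν.toAlgHom _ _
      rw [this, minpoly.aeval, map_zero]
  exact eq_of_monic_of_associated hmon (minpoly.monic hint) (associated_of_dvd_dvd h2 h1)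

/-- if `u` is a `p`-th power modulo an irreducible polynomial of degree prime to `p`, it is one -/
lemma pow_of_mod {κ : Type} [Field κ] (p : ℕ) (hp : 0 < p) (D z : κ[X]) (u : κ) (hu : u ≠ 0) (hD : Irreducible D)
    (hc : Nat.Coprime D.natDegree p) (h : D ∣ z ^ p - C u) : ∃ v : κ, v ^ p = u := by
  haveI : Fact (Irreducible D) := ⟨hD⟩
  have h1 : (AdjoinRoot.mk D z) ^ p = algebraMap κ (AdjoinRoot D) u := by
    rw [← map_pow, ← sub_eq_zero]
    have : algebraMap κ (AdjoinRoot D) u = AdjoinRoot.mk D (C u) := rfl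
    rw [this, ← map_sub]
    exact AdjoinRoot.mk_eq_zero.2 h
  have h2 := congrArg (Algebra.norm κ) h1
  rw [map_pow, Algebra.norm_algebraMap] at h2
  have h3 : Module.finrank κ (AdjoinRoot D) = D.natDegree := by
    rw [PowerBasis.finrank (AdjoinRoot.powerBasis hD.ne_zero), AdjoinRoot.powerBasis_dim]
  rw [h3] at h2
  set N := Algebra.norm κ (AdjoinRoot.mk D z)
  -- bezout
  have hb := Nat.gcd_eq_gcd_ab D.natDegree p
  rw [hc] at hb
  have hN : N ≠ 0 := by
    intro h0
    rw [h0] at h2
    rw [zero_pow hp.ne'] at h2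
    exact pow_ne_zero _ hu h2.symm
  refine ⟨N ^ (Nat.gcdA D.natDegree p) * u ^ (Nat.gcdB D.natDegree p), ?_⟩
  have e1 : (N ^ (Nat.gcdA D.natDegree p) * u ^ (Nat.gcdB D.natDegree p)) ^ p =
      u ^ ((D.natDegree : ℤ) * Nat.gcdA D.natDegree p + p * Nat.gcdB D.natDegree p) := by
    rw [mul_pow, zpow_add₀ hu, zpow_mul, zpow_mul, zpow_natCast, zpow_natCast, ← h2,
      ← zpow_natCast, ← zpow_natCast, ← zpow_mul, ← zpow_natCast N, ← zpow_mul, ← zpow_natCast u,
      mul_comm (Nat.gcdA D.natDegree p) _]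
    congr 1
    · rw [← zpow_mul, mul_comm]
    · rw [mul_comm, zpow_mul]
  rw [e1, ← hb]
  simp


/-- the condition for one orbit -/
theorem main : Pool.Agent.Helper55.RT.Q_VKO := by
  intro p hpf k k' _ _ _ _ hsep κ _ hμ n θ hθ P hP hPκ hPθ O hO1 hO2 hO3 hcop hOne H D₁ D₂ hD₁ hD₂
  have hp : 0 < p := hpf.out.pos
  haveI : CharZero k' := charZero_of_injective_algebraMap (algebraMap k k').injective
  haveI : CharZero κ := charZero_of_injective_algebraMap (algebraMap k κ).injective
  haveI : IsSepClosed k' := hsep.sep_closed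
  haveI : Algebra.IsSeparable k k' := hsep.separable
  haveI : IsAlgClosed k' := inferInstance
  haveI : Algebra.IsIntegral κ k' := inferInstance
  obtain ⟨i₀, hi₀⟩ := hOne
  have hinj := (algebraMap κ k').injective
  have hmin : ∀ i ∈ O, D₁ = minpoly κ (θ i) := fun i hi =>
    irr_of θ hθ O i hi (hO3 i hi) D₁ hD₁
  have hint : ∀ x : k', IsIntegral κ x := fun x => Algebra.IsIntegral.isIntegral x
  have hirr : Irreducible D₁ := by
    rw [hmin i₀ hi₀]; exact minpoly.irreducible (hint _)
  have hPmap : ∀ x : k', aeval x (P.map (algebraMap k κ)) = aeval x P := fun x => by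
    rw [aeval_map_algebraMap]
  have hD₂ev : ∀ x : k', aeval x D₂ = ∏ j ∈ Oᶜ, (x - θ j) := fun x => by
    rw [← eval_map_algebraMap, hD₂, eval_prod]
    simp
  have hs0 : ∀ i ∈ O, aeval (θ i) (P.map (algebraMap k κ) * D₂) ≠ 0 := by
    intro i hi
    rw [map_mul, hPmap, hD₂ev]
    refine mul_ne_zero (hPθ i) (Finset.prod_ne_zero_iff.2 fun j hj => ?_)
    rw [sub_ne_zero]
    intro h
    have := hθ h
    subst this
    exact (Finset.mem_compl.1 hj) hi
  refine ⟨hirr, ?_, ?_⟩
  · intro h
    apply hs0 i₀ hi₀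
    obtain ⟨q, hq⟩ := h
    rw [hq, map_mul, hmin i₀ hi₀, minpoly.aeval, zero_mul]
  intro u S hu hSm hSq hSd hSn hPw
  set R := (P.map (algebraMap k k')).roots.toFinset with hR
  have hS0 : S ≠ 0 := hSm.ne_zero
  set S' := S.map (algebraMap κ k') with hS'
  have hS'm : S'.Monic := hSm.map _
  have hP'0 : P.map (algebraMap k k') ≠ 0 :=
    (Polynomial.map_ne_zero_iff (algebraMap k k').injective).2 hP
  have hmemR : ∀ x : k', x ∈ R ↔ aeval x P = 0 := fun x => by
    rw [hR, Multiset.mem_toFinset, mem_roots hP'0, IsRoot.def, eval_map_algebraMap]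
  -- roots of `S'`
  have hroots : ∀ x : k', eval x S' = 0 → x ∈ R ∨ ∃ j, x = θ j := by
    intro x hx
    obtain ⟨q, hq⟩ := hSd
    have h1 : aeval x ((P.map (algebraMap k κ) * D₂) ^ (p - 1)) = 0 := by
      rw [hq, map_mul]
      rw [hS', eval_map_algebraMap] at hx
      rw [hx, zero_mul]
    rw [map_pow] at h1
    have h2 := eq_zero_of_pow_eq_zero h1
    rw [map_mul, hPmap, hD₂ev] at h2
    rcases mul_eq_zero.1 h2 with h3 | h3
    · left; exact (hmemR x).2 h3
    · right
      obtain ⟨j, -, hj⟩ := Finset.prod_eq_zero_iff.1 h3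
      exact ⟨j, sub_eq_zero.1 hj⟩
  have hdisj : ∀ j, θ j ∉ R := fun j h => hPθ j ((hmemR _).1 h)
  let e : Fin n → ℕ := fun i => rootMultiplicity (θ i) S'
  let g : k' → ℕ := fun x => rootMultiplicity x S'
  have hlt : ∀ x, rootMultiplicity x S' < p := fun x => mult_lt p S hS0 hSq x (hint x)
  -- the factorization
  have hfac : ∀ x : k', eval x S' = bet θ R e g x := by
    intro x
    have h1 : S' = (S'.roots.map (fun a => X - C a)).prod :=
      (IsAlgClosed.splits S').eq_prod_roots_of_monic hS'm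
    have h2 : S' = ∏ a ∈ S'.roots.toFinset, (X - C a) ^ rootMultiplicity a S' := by
      conv_lhs => rw [h1]
      rw [Finset.prod_multiset_map_count]
      refine Finset.prod_congr rfl fun a _ => ?_
      rw [count_roots]
    have h3 : S'.roots.toFinset ⊆ (Finset.univ.image θ) ∪ R := by
      intro a ha
      rw [Multiset.mem_toFinset, mem_roots hS'm.ne_zero, IsRoot.def] at ha
      rcases hroots a ha with h | ⟨j, rfl⟩
      · exact Finset.mem_union_right _ h
      · exact Finset.mem_union_left _ (Finset.mem_image_of_mem _ (Finset.mem_univ _))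
    have h4 : S' = ∏ a ∈ (Finset.univ.image θ) ∪ R, (X - C a) ^ rootMultiplicity a S' := by
      conv_lhs => rw [h2]
      refine Finset.prod_subset h3 fun a _ ha => ?_
      rw [Multiset.mem_toFinset, ← Multiset.count_pos, count_roots, not_lt, Nat.le_zero] at ha
      rw [ha, pow_zero]
    have h5 : Disjoint (Finset.univ.image θ) R := by
      rw [Finset.disjoint_left]
      intro a ha
      obtain ⟨j, -, rfl⟩ := Finset.mem_image.1 ha
      exact hdisj j
    rw [Finset.prod_union h5, Finset.prod_image (fun a _ b _ h => hθ h)] at h4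
    conv_lhs => rw [h4]
    rw [eval_mul, eval_prod, eval_prod]
    unfold bet
    congr 1
    · refine Finset.prod_congr rfl fun i _ => ?_
      rw [eval_pow, eval_sub, eval_X, eval_C]
    · refine Finset.prod_congr rfl fun i _ => ?_
      rw [eval_pow, eval_sub, eval_X, eval_C]
  have hSθ : ∀ i ∈ O, aeval (θ i) S ≠ 0 := by
    intro i hi h
    apply hSn
    rw [hmin i hi]
    exact minpoly.dvd _ _ h
  have he0 : ∀ i ∈ O, e i = 0 := by
    intro i hi
    apply rootMultiplicity_eq_zero
    rw [IsRoot.def, hS', eval_map_algebraMap]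
    exact hSθ i hi
  have heinv : ∀ (ν : k' ≃ₐ[κ] k') (i j : Fin n), ν (θ i) = θ j → e i = e j := by
    intro ν i j hij
    have h1 : S'.map (ν : k' →+* k') = S' := by
      rw [hS', Polynomial.map_map]
      congr 1
      ext x
      exact ν.commutes x
    change rootMultiplicity (θ i) S' = rootMultiplicity (θ j) S'
    rw [eq_rootMultiplicity_map (f := (ν : k' →+* k')) ν.injective (θ i), h1]
    congr 1
  obtain ⟨z, hz⟩ := hPw
  have hzθ : ∀ i ∈ O, (aeval (θ i) z) ^ p = algebraMap κ k' u * bet θ R e g (θ i) := by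
    intro i hi
    obtain ⟨q, hq⟩ := hz
    have h1 : aeval (θ i) (z ^ p - C u * S) = 0 := by
      rw [hq, map_mul, hmin i hi, minpoly.aeval, zero_mul]
    rw [map_sub, map_pow, map_mul, aeval_C, sub_eq_zero] at h1
    rw [h1, ← hfac, hS', eval_map_algebraMap]
  have hu' : algebraMap κ k' u ≠ 0 := (_root_.map_ne_zero _).2 hu
  obtain ⟨hE, hG⟩ := H e g he0 (fun i => hlt _) (fun r => hlt _) heinv (by
    intro i hi j hj
    have hb : bet θ R e g (θ j) ≠ 0 := by
      rw [← hfac, hS', eval_map_algebraMap]; exact hSθ j hj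
    refine ⟨aeval (θ i) z / aeval (θ j) z, ?_, ?_⟩
    · intro ν hν
      have h1 : ∀ l, ν (aeval (θ l) z) = aeval (θ l) z := by
        intro l
        have : aeval (ν (θ l)) z = ν (aeval (θ l) z) :=
          Polynomial.aeval_algHom_apply ν.toAlgHom _ _
        rw [← this, hν]
      rw [map_div₀, h1, h1]
    · rw [div_pow, hzθ i hi, hzθ j hj]
      field_simp)
  have hS1 : S' = 1 := by
    have h1 : S' = (S'.roots.map (fun a => X - C a)).prod :=
      (IsAlgClosed.splits S').eq_prod_roots_of_monic hS'm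
    have h2 : S'.roots = 0 := by
      rw [Multiset.eq_zero_iff_forall_notMem]
      intro x hx
      have h3 := (rootMultiplicity_pos hS'm.ne_zero).2 ((mem_roots hS'm.ne_zero).1 hx)
      rw [mem_roots hS'm.ne_zero, IsRoot.def] at hx
      rcases hroots x hx with h | ⟨j, rfl⟩
      · exact h3.ne' (hG x h)
      · exact h3.ne' (hE j)
    rw [h1, h2]
    simp
  have hS1' : S = 1 := by
    apply Polynomial.map_injective _ hinj
    rw [← hS', hS1, Polynomial.map_one]
  refine ⟨hS1', ?_⟩
  rw [hS1', mul_one] at hz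
  refine pow_of_mod p hp D₁ z u hu hirr ?_ hz
  have hdeg : D₁.natDegree = O.card := by
    rw [← natDegree_map_eq_of_injective hinj D₁, hD₁, natDegree_prod_of_monic _ _
      (fun i _ => monic_X_sub_C _)]
    simp
  rw [hdeg]
  exact hcop

end Pool.Agent.Helper26.Thin.VKO
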